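import Pool.Graph.R_pool_sql_team_seeded_1acbe0a2.Y795.PiH.Top
import Pool.Graph.R_seed8.W47.JL.Single
import Pool.Graph.R_seed8.H831R3.LC.Final
import Pool.Graph.R_seed8.R473.FP.FS
import Pool.Graph.R_seed8.H346R2.Pi.Bases
import Pool.Graph.R_seed8.W226.MP.Place

/-!
# The irrationality exponent of `π` is at most `5.643`, and the digits of `π` in all bases

The published record for the irrationality exponent of `π` is `7.1032…` (Zeilberger and Zudilin 2020); hand-ins on the
digits of `π` of earlier runs use `6.05`. The exponent `5.643` comes from Hankel determinants of a family of integrals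
(library project `Y795/PiH` of helper795 and its team, which was finished but never handed in). Through it the
following statements on the digits of `π` hold in all bases `b ≥ 2` at once with better constants than before: the
lengths of the periodic blocks of digits, the linear complexity profile and the `k`-error linear complexity of the
digits, the number of errors of a finite automaton which predicts the digits, and the distribution of the words of
digits of the multiples of `π` at a place.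
-/

set_option autoImplicit false

namespace Pool.Agent.Results.MP_57632f_nt.ExponentOfPi

open Finset

/-- the `i`-th digit of `x` after the point in base `b` -/
noncomputable def digit (b : ℕ) (x : ℝ) (i : ℕ) : ℤ := ⌊x * (b : ℝ) ^ i⌋ % (b : ℤ)

/-- The terms `s_1, …, s_L` satisfy a linear recurrence of order `m` over `ℚ`:
`s_(i+m) = c_0 s_i + … + c_(m-1) s_(i+m-1)` for `1 ≤ i ≤ L - m`. -/
def Recurrence (s : ℕ → ℤ) (L m : ℕ) : Prop :=
  ∃ c : ℕ → ℚ, ∀ i : ℕ, 1 ≤ i → i + m ≤ L →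
    (s (i + m) : ℚ) = ∑ j ∈ range m, c j * (s (i + j) : ℚ)

/-- the linear complexity over `ℚ` of the first `L` digits of `x` in base `b`: the least order of a recurrence -/
noncomputable def linearComplexity (b : ℕ) (x : ℝ) (L : ℕ) : ℕ := sInf {m | Recurrence (digit b x) L m}

/-- the `k`-error linear complexity of the first `L` digits of `x` in base `b`: the least order of
a recurrence satisfied by the first `L` terms of a sequence of integers between `-b` and `b` which
differs from the sequence of digits in at most `k` of the places `1, …, L` -/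
noncomputable def errorComplexity (b : ℕ) (x : ℝ) (k L : ℕ) : ℕ :=
  sInf {m | ∃ s : ℕ → ℤ, (∀ i, |s i| ≤ b) ∧
    ((Icc 1 L).filter fun i => s i ≠ digit b x i).card ≤ k ∧ Recurrence s L m}

/-- the state of the automaton with the transitions `δ` and the initial state `q₀` after it has read the digits number
`1, …, n` of `x` in base `b` -/
noncomputable def state {Q : ℕ} (b : ℕ) (x : ℝ) (δ : Fin Q → ℤ → Fin Q) (q₀ : Fin Q) : ℕ → Fin Q
  | 0 => q₀
  | n + 1 => δ (state b x δ q₀ n) (digit b x (n + 1))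

/-- the number of errors of the automaton on the first `N` digits: in the state `σ` it predicts that the next digit is
`out σ` -/
noncomputable def errors {Q : ℕ} (b : ℕ) (x : ℝ) (δ : Fin Q → ℤ → Fin Q) (q₀ : Fin Q) (out : Fin Q → ℤ) (N : ℕ) :
    ℕ :=
  ((range N).filter fun n => out (state b x δ q₀ n) ≠ digit b x (n + 1)).card

/-- the digits of `y` in base `b` at the places `n + 1, …, n + L` are `v 0, …, v (L - 1)` -/
def WordAt (b L : ℕ) (v : Fin L → Fin b) (y : ℝ) (n : ℕ) : Prop :=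
  ∀ s : Fin L, digit b y (n + s + 1) = ((v s : ℕ) : ℤ)

lemma state_eq {Q : ℕ} (b : ℕ) (x : ℝ) (δ : Fin Q → ℤ → Fin Q) (q₀ : Fin Q) (n : ℕ) :
    state b x δ q₀ n = Pool.Agent.R473.FP.run δ q₀ (digit b x) n := by
  induction n with
  | zero => rfl
  | succ n ih => rw [state, ih, Pool.Agent.R473.FP.run]

lemma errors_eq {Q : ℕ} (b : ℕ) (x : ℝ) (δ : Fin Q → ℤ → Fin Q) (q₀ : Fin Q) (out : Fin Q → ℤ) (N : ℕ) :
    errors b x δ q₀ out N = Pool.Agent.R473.FP.errors δ q₀ out (digit b x) N := by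
  unfold errors Pool.Agent.R473.FP.errors
  congr 1
  refine Finset.filter_congr fun n _ => ?_
  rw [state_eq]

lemma dig_abs (b : ℕ) (hb : 2 ≤ b) (x : ℝ) (i : ℕ) : |digit b x i| ≤ b := by
  unfold digit
  have hb0 : (0 : ℤ) < b := by exact_mod_cast (by omega : 0 < b)
  rw [abs_of_nonneg (Int.emod_nonneg _ hb0.ne')]
  exact (Int.emod_lt_of_pos _ hb0).le

/-- the infimum is attained -/
lemma attained (b : ℕ) (hb : 2 ≤ b) (x : ℝ) (k L : ℕ) :
    ∃ s : ℕ → ℤ, (∀ i, |s i| ≤ b) ∧ ((Icc 1 L).filter fun i => s i ≠ digit b x i).card ≤ k ∧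
      Recurrence s L (errorComplexity b x k L) := by
  refine Nat.sInf_mem (s := {m | ∃ s : ℕ → ℤ, (∀ i, |s i| ≤ b) ∧
    ((Icc 1 L).filter fun i => s i ≠ digit b x i).card ≤ k ∧ Recurrence s L m}) ?_
  exact ⟨L, digit b x, dig_abs b hb x, by simp, fun _ => 0, fun i h1 h2 => by omega⟩

/-- small denominators -/
theorem small_den (x : ℝ) (hx : Irrational x) (n : ℕ) :
    ∃ c : ℝ, 0 < c ∧ ∀ q : ℕ, 1 ≤ q → q < n → ∀ p : ℤ, c ≤ |q * x - p| := by
  induction n with
  | zero => exact ⟨1, one_pos, fun q _ h => absurd h (Nat.not_lt_zero q)⟩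
  | succ n ih =>
    obtain ⟨c, hc, h⟩ := ih
    rcases Nat.eq_zero_or_pos n with hn | hn
    · exact ⟨1, one_pos, fun q h1 h2 => by omega⟩
    · have hirr : Irrational ((n : ℝ) * x) := hx.natCast_mul (by omega)
      have hpos : 0 < |(n : ℝ) * x - round ((n : ℝ) * x)| := by
        rw [abs_pos, sub_ne_zero]
        exact hirr.ne_int _
      refine ⟨min c |(n : ℝ) * x - round ((n : ℝ) * x)|, lt_min hc hpos, fun q h1 h2 p => ?_⟩
      rcases Nat.lt_succ_iff_lt_or_eq.1 h2 with h3 | h3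
      · exact (min_le_left _ _).trans (h q h1 h3 p)
      · rw [h3]
        exact (min_le_right _ _).trans (round_le _ _)

/-- the exponent, in the form for large denominators -/
theorem large : ∃ q0 : ℕ, ∀ q : ℕ, q0 ≤ q → ∀ p : ℤ, (q : ℝ) ^ (-(5.643 : ℝ)) ≤ |Real.pi - p / q| :=
  Pool.Agent.Y795.PiH.main

/-- the exponent, for all denominators -/
theorem pi_measure : ∃ c : ℝ, 0 < c ∧ ∀ q : ℕ, 1 ≤ q → ∀ p : ℤ,
    c ≤ (q : ℝ) ^ (4.643 : ℝ) * |q * Real.pi - p| := by
  obtain ⟨q0, hq0⟩ := large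
  obtain ⟨c, hc, hsm⟩ := small_den Real.pi irrational_pi q0
  refine ⟨min c 1, lt_min hc one_pos, fun q hq p => ?_⟩
  have hqR : (1 : ℝ) ≤ q := by exact_mod_cast hq
  have hq0R : (0 : ℝ) < q := by linarith
  rcases lt_or_ge q q0 with h | h
  · refine (min_le_left _ _).trans ((hsm q hq h p).trans ?_)
    have h1 : (1 : ℝ) ≤ (q : ℝ) ^ (4.643 : ℝ) := Real.one_le_rpow hqR (by norm_num)
    nlinarith [abs_nonneg ((q : ℝ) * Real.pi - p)]
  · refine (min_le_right _ _).trans ?_
    have h1 := hq0 q h p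
    have e1 : |Real.pi - p / q| = |q * Real.pi - p| / q := by
      rw [← abs_of_pos hq0R, ← abs_div, abs_of_pos hq0R]
      congr 1
      field_simp
    rw [e1, le_div_iff₀ hq0R] at h1
    have h2 : (1 : ℝ) = (q : ℝ) ^ (4.643 : ℝ) * ((q : ℝ) ^ (-(5.643 : ℝ)) * q) := by
      have e2 : (q : ℝ) ^ (-(5.643 : ℝ)) * q = (q : ℝ) ^ (-(4.643 : ℝ)) := by
        rw [show (-(4.643 : ℝ)) = -(5.643 : ℝ) + 1 by norm_num, Real.rpow_add hq0R, Real.rpow_one]
      rw [e2, ← Real.rpow_add hq0R]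
      norm_num
    rw [h2]
    exact mul_le_mul_of_nonneg_left h1 (by positivity)

/-- no long periodic block in any base -/
theorem blocks : ∃ N0 : ℕ, ∀ b : ℕ, 2 ≤ b → ∀ N : ℕ, N0 ≤ N → ∀ s : ℕ, 1 ≤ s →
    ∃ i : ℕ, N < i ∧ (i : ℝ) ≤ N + 4.644 * (N + s) ∧
      ⌊Real.pi * (b : ℝ) ^ (i + s)⌋ % (b : ℤ) ≠ ⌊Real.pi * (b : ℝ) ^ i⌋ % (b : ℤ) := by
  obtain ⟨q0, hq0⟩ := large
  refine ⟨max q0 1000, fun b hb N hN s hs => ?_⟩
  have hN1 : 1000 ≤ N := le_trans (le_max_right _ _) hN
  have hNq : q0 ≤ N := le_trans (le_max_left _ _) hN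
  have hNR : (1000 : ℝ) ≤ N := by exact_mod_cast hN1
  have hsR : (1 : ℝ) ≤ s := by exact_mod_cast hs
  obtain ⟨l, hl⟩ : ∃ l, l = ⌈4.643 * ((N : ℝ) + s)⌉₊ := ⟨_, rfl⟩
  have hl1 : 4.643 * ((N : ℝ) + s) ≤ l := by rw [hl]; exact Nat.le_ceil _
  have hl2 : (l : ℝ) < 4.643 * ((N : ℝ) + s) + 1 := by
    rw [hl]; exact Nat.ceil_lt_add_one (by positivity)
  obtain ⟨q, hq⟩ : ∃ q : ℕ, q = b ^ N * (b ^ s - 1) := ⟨_, rfl⟩
  have hbs : 1 ≤ b ^ s := Nat.one_le_pow _ _ (by omega)
  have hbs1 : 1 ≤ b ^ s - 1 := by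
    have : b ^ 1 ≤ b ^ s := Nat.pow_le_pow_right (by omega) hs
    rw [pow_one] at this
    omega
  have hqN : N ≤ q := by
    have h1 : N < b ^ N := Nat.lt_pow_self (by omega)
    have h2 : b ^ N * 1 ≤ b ^ N * (b ^ s - 1) := Nat.mul_le_mul_left _ hbs1
    rw [hq]; omega
  have hqpos : (0 : ℝ) < q := by
    have : 0 < q := by omega
    exact_mod_cast this
  obtain ⟨i, hi1, hi2, hi3⟩ := Pool.Agent.H346R2.Pi.no_run Real.pi b hb N s l hs 4.643 (by norm_num) hl1
    (fun p => by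
      have h1 := hq0 q (by omega) p
      rw [← hq]
      have h4 : |Real.pi - p / q| = |q * Real.pi - p| / q := by
        rw [← abs_of_pos hqpos, ← abs_div, abs_of_pos hqpos]
        congr 1
        field_simp
      rw [h4, le_div_iff₀ hqpos] at h1
      refine le_trans (le_of_eq ?_) h1
      conv_rhs => rw [← Real.rpow_one (q : ℝ), ← Real.rpow_mul hqpos.le, ← Real.rpow_add hqpos]
      rw [Real.rpow_def_of_pos hqpos]
      congr 1; ring)
  refine ⟨i, hi1, ?_, hi3⟩
  have : (i : ℝ) ≤ N + l := by exact_mod_cast hi2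
  linarith

/-- **The irrationality exponent of `π` is at most `5.643`.** (1) For all large `q` and all `a` we have
`|π - a / q| ≥ q ^ (-5.643)`. Consequences for the digits of `π` in all bases `b ≥ 2` (for instance `b = 10`), with
constants that do not depend on the base: (2) There is `N₀` such that for all `N ≥ N₀` and all `s ≥ 1` the digits are
not `s`-periodic from place `N + 1` to place `N + 4.644 (N + s)`: some `i` there has `digit (i + s) ≠ digit i`. (3) For
all large `L` the linear complexity over `ℚ` of the first `L` digits is larger than `L / 5.65` and at most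
`(1 - 1 / 5.65) L`. (4) For all `k` and `L` the `k`-error linear complexity `m` of the first `L` digits satisfies
`L ≤ (5.643 + 5.643 ^ 2 + ⋯ + 5.643 ^ (k + 1)) (m + C √((m + 1) log (m + 2)))`. (5) For every automaton with `Q`
states (transitions `δ`, initial state `q₀`, predictions `out`) which reads the digits one after the other and predicts
the next one, the number `E` of its errors on the first `N` digits satisfies
`N ≤ (5.643 + 5.643 ^ 2 + ⋯ + 5.643 ^ (E + 1)) (Q + C)`. (6) For all `L` and `N` there is a place `n` with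
`N ≤ n ≤ 5.643 N + 4.643 L + C` such that for every real `x` every word of `L` digits stands after the place `n` in the
expansion of `x + m π` for at most `2 b` of the `b ^ L` numbers `m < b ^ L` and for at least one `m < 4 b ^ (L + 1)`. -/
theorem result :
    (∃ q₀ : ℕ, ∀ q : ℕ, q₀ ≤ q → ∀ a : ℤ, (q : ℝ) ^ (-(5.643 : ℝ)) ≤ |Real.pi - a / q|) ∧
    (∃ N₀ : ℕ, ∀ b : ℕ, 2 ≤ b → ∀ N : ℕ, N₀ ≤ N → ∀ s : ℕ, 1 ≤ s →
      ∃ i : ℕ, N < i ∧ (i : ℝ) ≤ N + 4.644 * (N + s) ∧ digit b Real.pi (i + s) ≠ digit b Real.pi i) ∧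
    (∃ L₀ : ℕ, ∀ L : ℕ, L₀ ≤ L → ∀ b : ℕ, 2 ≤ b →
      (1 / 5.65 : ℝ) * L < linearComplexity b Real.pi L ∧
        (linearComplexity b Real.pi L : ℝ) ≤ (1 - 1 / 5.65) * L) ∧
    (∃ C : ℝ, ∀ b : ℕ, 2 ≤ b → ∀ k L m : ℕ, m = errorComplexity b Real.pi k L →
      (L : ℝ) ≤ (∑ j ∈ Icc 1 (k + 1), (5.643 : ℝ) ^ j) *
        (m + C * Real.sqrt (((m : ℝ) + 1) * Real.log ((m : ℝ) + 2)))) ∧
    (∃ C : ℝ, ∀ b : ℕ, 2 ≤ b → ∀ (Q : ℕ) (δ : Fin Q → ℤ → Fin Q) (q₀ : Fin Q) (out : Fin Q → ℤ) (N : ℕ),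
      (N : ℝ) ≤ (∑ j ∈ Icc 1 (errors b Real.pi δ q₀ out N + 1), (5.643 : ℝ) ^ j) * (Q + C)) ∧
    (∃ C : ℝ, ∀ b : ℕ, 2 ≤ b → ∀ L N : ℕ, ∃ n : ℕ, N ≤ n ∧ (n : ℝ) ≤ 5.643 * N + 4.643 * L + C ∧
      ∀ (x : ℝ) (v : Fin L → Fin b),
        {m : ℕ | m < b ^ L ∧ WordAt b L v (x + m * Real.pi) n}.ncard ≤ 2 * b ∧
        ∃ m < 4 * b ^ (L + 1), WordAt b L v (x + m * Real.pi) n) := by
  have hsum : ∀ k : ℕ, (∑ j ∈ Icc 1 (k + 1), (5.643 : ℝ) ^ j) = ∑ i ∈ range (k + 1), (5.643 : ℝ) ^ (i + 1) := by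
    intro k
    rw [Finset.range_eq_Ico, Finset.sum_Ico_add' (fun j => (5.643 : ℝ) ^ j) 0 (k + 1) 1]
    rfl
  obtain ⟨c, hc, hx⟩ := pi_measure
  refine ⟨large, blocks, ?_, ?_, ?_, ?_⟩
  · obtain ⟨L₀, h⟩ := Pool.Agent.H831R3.LC.profile Real.pi 4.643 c (by norm_num) hc hx (1 / 5.65) (by norm_num)
      (by norm_num)
    exact ⟨L₀, h⟩
  · obtain ⟨C, hC0, hC⟩ := Pool.Agent.W47.JL.single Real.pi 5.643 c 0 (by norm_num) hc le_rfl
      (fun q hq p => by
        rw [Real.rpow_zero, mul_one, show (5.643 : ℝ) - 1 = 4.643 by norm_num]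
        exact hx q hq p)
    refine ⟨C, fun b hb k L m hm => ?_⟩
    subst hm
    obtain ⟨s, hs, hE, hrec⟩ := attained b hb Real.pi k L
    have h := hC b hb L (errorComplexity b Real.pi k L) k s hs hE hrec
    rw [← Pool.Agent.W47.JL.geom 5.643 (by norm_num) k] at h
    rw [hsum]
    exact h
  · obtain ⟨C, hC0, hC⟩ := Pool.Agent.R473.FP.predictors Real.pi 5.643 c 0 (by norm_num) hc le_rfl
      (fun q hq p => by
        rw [Real.rpow_zero, mul_one, show (5.643 : ℝ) - 1 = 4.643 by norm_num]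
        exact hx q hq p)
    refine ⟨C, fun b hb Q δ q₀ out N => ?_⟩
    have h := hC b hb Q δ q₀ out N
    rw [mul_zero, zero_div, zero_mul, add_zero] at h
    rw [hsum, errors_eq]
    exact h
  · obtain ⟨C, hC⟩ := Pool.Agent.W226.MP.place_of_measure Real.pi 4.643 c irrational_pi (by norm_num) hc hx
    refine ⟨C, fun b hb L N => ?_⟩
    obtain ⟨n, h1, h2, h3⟩ := hC b hb L N
    refine ⟨n, h1, h2.trans (le_of_eq (by norm_num)), fun x v => ⟨?_, (h3 x).2.1 v⟩⟩
    refine le_trans (le_of_eq ?_) ((h3 x).1 v)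
    classical
    rw [← Set.ncard_coe_finset]
    refine congrArg Set.ncard (Set.ext fun m => ?_)
    simp only [Set.mem_ofPred_eq, Finset.coe_filter, Finset.mem_range]
    exact Iff.rfl

end Pool.Agent.Results.MP_57632f_nt.ExponentOfPi
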