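import Pool.Agent.H608.Sp.Two
import Pool.Agent.H608.Sp.Root2
import Mathlib

/-!
# Absolutely normal numbers from Leibniz's series and Wallis' product with very few terms omitted

We omit the terms `4 / (4 m + 1)` of Leibniz's series `π = 4 - 4/3 + 4/5 - 4/7 + ⋯` and the factors
`(2 m + 2) / (2 m + 1)` of Wallis' product `π = 2 · 2/1 · 2/3 · 4/3 · 4/5 · 6/5 · 6/7 ⋯` for the elements
`m` of one very sparse set `E`, with at most `C log log log K` elements up to `K`. Both limits are
normal in every integer base, as are all their nonconstant affine-linear images `α x + β` with `α, β` in a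
given countable set of numbers (for instance all algebraic numbers); for linearly independent `α j` the
numbers `α j x + β j` are jointly normal.
-/

set_option autoImplicit false

namespace Pool.Agent.Results.MP_57632f_nt.FewOmittedTerms

open Finset Filter Topology
open Pool.Agent.H608.Sp

/-- the digit of `x` in base `b` at position `i` after the point -/
noncomputable def digit (b : ℕ) (x : ℝ) (i : ℕ) : ℤ := ⌊x * (b : ℝ) ^ i⌋ % (b : ℤ)

open Classical in
/-- the tuple `x` is jointly normal in base `b`: every digit matrix with `n` rows and `m` columns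
occurs along the positions with limiting frequency `b ^ (-(m * n))` -/
def JointlyNormal (b : ℕ) {n : ℕ} (x : Fin n → ℝ) : Prop :=
  ∀ m : ℕ, 1 ≤ m → ∀ D : Fin n → Fin m → Fin b,
    Tendsto (fun N : ℕ => (((Icc 1 N).filter fun i : ℕ =>
      ∀ (j : Fin n) (t : Fin m), digit b (x j) (i + (t : ℕ)) = ((D j t : ℕ) : ℤ)).card : ℝ) / (N : ℝ))
      atTop (𝓝 (1 / (b : ℝ) ^ (m * n)))

/-- the terms of Leibniz's series `π = 4 - 4/3 + 4/5 - 4/7 + ⋯` -/
noncomputable def leibniz (k : ℕ) : ℝ := 4 * (-1) ^ k / (2 * (k : ℝ) + 1)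

/-- the factors of Wallis' product `π / 2 = 2/1 · 2/3 · 4/3 · 4/5 · 6/5 · 6/7 ⋯` -/
noncomputable def wallis (k : ℕ) : ℝ :=
  if k % 2 = 0 then ((k : ℝ) + 2) / ((k : ℝ) + 1) else ((k : ℝ) + 1) / ((k : ℝ) + 2)

/-- `A` has at least `H exp (- (log H) ^ (2 / 5))` elements in `[H, 2 H)`, for all large `H` -/
def NotTooSparse (A : Set ℕ) : Prop :=
  ∀ᶠ H : ℕ in atTop, H * Real.exp (-(Real.log H) ^ (2 / 5 : ℝ)) ≤
    (({k : ℕ | k ∈ A ∧ H ≤ k ∧ k < 2 * H}.ncard : ℕ) : ℝ)

lemma jn_of_nt (b : ℕ) {n : ℕ} (x : Fin n → ℝ) (h : Pool.Agent.W206.ND.NT b x) :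
    JointlyNormal b x := by
  intro m hm D
  have h1 := h m hm D
  refine h1.congr fun N => ?_
  congr 2

lemma sum_leibniz : Tendsto (fun N : ℕ => ∑ k ∈ range N, leibniz k) atTop (𝓝 Real.pi) := by
  have h1 := Real.tendsto_sum_pi_div_four.const_mul 4
  rw [mul_div_cancel₀ Real.pi (by norm_num : (4 : ℝ) ≠ 0)] at h1
  refine h1.congr fun N => ?_
  rw [mul_sum]
  refine sum_congr rfl fun k _ => ?_
  rw [leibniz]
  ring

lemma wallis_even (m : ℕ) : wallis (2 * m) = (2 * (m : ℝ) + 2) / (2 * (m : ℝ) + 1) := by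
  rw [wallis, if_pos (by omega)]
  push_cast
  ring

lemma wallis_odd (m : ℕ) : wallis (2 * m + 1) = (2 * (m : ℝ) + 2) / (2 * (m : ℝ) + 3) := by
  rw [wallis, if_neg (by omega)]
  push_cast
  ring

lemma prod_wallis : Tendsto (fun N : ℕ => 2 * ∏ k ∈ range N, wallis k) atTop (𝓝 Real.pi) := by
  have h1 := Real.tendsto_prod_pi_div_two
  have hev : ∀ n : ℕ, ∏ k ∈ range (2 * n), wallis k =
      ∏ i ∈ range n, ((2 : ℝ) * i + 2) / (2 * i + 1) * ((2 * i + 2) / (2 * i + 3)) := by
    intro n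
    induction n with
    | zero => simp
    | succ n ih =>
      rw [show 2 * (n + 1) = 2 * n + 1 + 1 by ring, prod_range_succ, prod_range_succ, ih,
        prod_range_succ _ n, wallis_even, wallis_odd]
      ring
  have heven : Tendsto (fun n : ℕ => ∏ k ∈ range (2 * n), wallis k) atTop (𝓝 (Real.pi / 2)) :=
    h1.congr fun n => (hev n).symm
  have h3 : Tendsto (fun N : ℕ => ∏ k ∈ range N, wallis k) atTop (𝓝 (Real.pi / 2)) := by
    apply tendsto_even_odd _ _ heven
    have h4 : Tendsto (fun n : ℕ => 1 + 1 / (2 * (n : ℝ) + 1)) atTop (𝓝 (1 + 0)) := by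
      apply Tendsto.const_add
      have h2 : Tendsto (fun n : ℕ => 2 * (n : ℝ) + 1) atTop atTop :=
        tendsto_atTop_add_const_right _ _ (tendsto_natCast_atTop_atTop.const_mul_atTop (by norm_num))
      refine h2.inv_tendsto_atTop.congr fun n => ?_
      simp
    rw [add_zero] at h4
    have h5 := heven.mul h4
    rw [mul_one] at h5
    refine h5.congr fun n => ?_
    rw [prod_range_succ, wallis_even]
    congr 1
    field_simp
    ring
  have h4 := h3.const_mul 2
  rwa [mul_div_cancel₀ Real.pi (by norm_num : (2 : ℝ) ≠ 0)] at h4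

open Classical in
lemma sum_even (E : Set ℕ) (f : ℕ → ℝ) (N : ℕ) :
    ∑ k ∈ (range ((N + 1) / 2)).filter (· ∈ E), f (2 * k) =
        ∑ k ∈ (range N).filter (fun k => ∃ m ∈ E, k = 2 * m), f k := by
  symm
  apply sum_nbij' (fun k => k / 2) (fun m => 2 * m)
  · intro k hk
    rw [mem_filter, mem_range] at hk ⊢
    obtain ⟨hk1, m, hm, rfl⟩ := hk
    rw [Nat.mul_div_cancel_left m (by norm_num)]
    exact ⟨by omega, hm⟩
  · intro m hm
    rw [mem_filter, mem_range] at hm ⊢
    exact ⟨by omega, m, hm.2, rfl⟩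
  · intro k hk
    rw [mem_filter] at hk
    obtain ⟨hk1, m, hm, rfl⟩ := hk
    omega
  · intro m _
    omega
  · intro k hk
    rw [mem_filter] at hk
    obtain ⟨hk1, m, hm, rfl⟩ := hk
    rw [Nat.mul_div_cancel_left m (by norm_num)]

open Classical in
lemma prod_even (E : Set ℕ) (f : ℕ → ℝ) (N : ℕ) :
    ∏ k ∈ (range ((N + 1) / 2)).filter (· ∈ E), f (2 * k) =
        ∏ k ∈ (range N).filter (fun k => ∃ m ∈ E, k = 2 * m), f k := by
  symm
  apply prod_nbij' (fun k => k / 2) (fun m => 2 * m)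
  · intro k hk
    rw [mem_filter, mem_range] at hk ⊢
    obtain ⟨hk1, m, hm, rfl⟩ := hk
    rw [Nat.mul_div_cancel_left m (by norm_num)]
    exact ⟨by omega, hm⟩
  · intro m hm
    rw [mem_filter, mem_range] at hm ⊢
    exact ⟨by omega, m, hm.2, rfl⟩
  · intro k hk
    rw [mem_filter] at hk
    obtain ⟨hk1, m, hm, rfl⟩ := hk
    omega
  · intro m _
    omega
  · intro k hk
    rw [mem_filter] at hk
    obtain ⟨hk1, m, hm, rfl⟩ := hk
    rw [Nat.mul_div_cancel_left m (by norm_num)]

open Classical in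
theorem result :
    -- Leibniz's series and Wallis' product
    Tendsto (fun N : ℕ => ∑ k ∈ range N, leibniz k) atTop (𝓝 Real.pi) ∧
    Tendsto (fun N : ℕ => 2 * ∏ k ∈ range N, wallis k) atTop (𝓝 Real.pi) ∧
    -- omission of few terms
    ∃ C : ℝ, 0 < C ∧ ∀ A : Set ℕ, NotTooSparse A → ∀ M : ℕ, ∀ S : Set ℝ, S.Countable →
      ∃ (E : Set ℕ) (x y : ℝ), E ⊆ A ∧ (∀ m ∈ E, M ≤ m) ∧
        (∀ K : ℕ, 16 ≤ K → (({m : ℕ | m ∈ E ∧ m ≤ K}.ncard : ℕ) : ℝ) ≤
          C * Real.log (Real.log (Real.log K))) ∧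
        Tendsto (fun N : ℕ => ∑ k ∈ (range N).filter (fun k => ¬ ∃ m ∈ E, k = 2 * m), leibniz k)
          atTop (𝓝 x) ∧
        Tendsto (fun N : ℕ => 2 * ∏ k ∈ (range N).filter (fun k => ¬ ∃ m ∈ E, k = 2 * m), wallis k)
          atTop (𝓝 y) ∧
        (∀ b : ℕ, 2 ≤ b → JointlyNormal b (fun _ : Fin 1 => x) ∧
          JointlyNormal b (fun _ : Fin 1 => y)) ∧
        (∀ (n : ℕ) (α β : Fin n → ℝ), (∀ j, α j ∈ S) → (∀ j, β j ∈ S) → LinearIndependent ℚ α →
          ∀ b : ℕ, 2 ≤ b → JointlyNormal b (fun j => α j * x + β j) ∧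
            JointlyNormal b (fun j => α j * y + β j)) := by
  refine ⟨sum_leibniz, prod_wallis, ?_⟩
  obtain ⟨C, hC, htwo⟩ := two
  refine ⟨C, hC, fun A hA M S hS => ?_⟩
  obtain ⟨E, x, y, hEA, hEM, hEK, hx, hy, hnx, hny, hall⟩ := htwo Real.pi (-1) (3 / 4) Real.pi (1 / 2) 0
    (by norm_num) (by norm_num) (by norm_num) Real.pi_ne_zero (by norm_num) le_rfl (by norm_num)
    (fun k => by
      rw [sub_zero, abs_of_pos (by positivity)]
      push_cast
      rw [one_div ((k : ℝ) + 1)]) A hA M S hS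
  have h2 : Tendsto (fun N : ℕ => (N + 1) / 2) atTop atTop := by
    rw [tendsto_atTop]
    intro l
    filter_upwards [eventually_ge_atTop (2 * l)] with N hN
    omega
  refine ⟨E, x, y, hEA, hEM, hEK, ?_, ?_, fun b hb => ⟨jn_of_nt b _ (hnx b hb), jn_of_nt b _ (hny b hb)⟩,
    fun n α β hα hβ hlin b hb => ⟨jn_of_nt b _ (hall n α β hα hβ hlin b hb).1,
      jn_of_nt b _ (hall n α β hα hβ hlin b hb).2⟩⟩
  · have h3 : Tendsto (fun N : ℕ => -∑ k ∈ (range ((N + 1) / 2)).filter (· ∈ E), leibniz (2 * k)) atTop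
        (𝓝 (x - Real.pi)) := by
      have h4 := (hx.comp h2).sub_const Real.pi
      refine h4.congr fun N => ?_
      simp only [Function.comp_apply]
      rw [add_sub_cancel_left, neg_one_mul]
      congr 1
      refine sum_congr rfl fun k _ => ?_
      rw [leibniz, pow_mul]
      push_cast
      have h5 : ((k : ℝ) + 1 - 3 / 4) = (4 * k + 1) / 4 := by ring
      rw [h5, inv_div]
      norm_num
      ring
    have h4 := sum_leibniz.add h3
    rw [add_sub_cancel] at h4
    refine h4.congr fun N => ?_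
    rw [sum_even E leibniz N, ← sum_filter_add_sum_filter_not (range N) (fun k => ∃ m ∈ E, k = 2 * m) leibniz]
    ring
  · have hw0 : ∀ k, wallis (2 * k) ≠ 0 := fun k => by
      rw [wallis_even]
      positivity
    have h3 : Tendsto (fun N : ℕ => Real.pi * (∏ k ∈ (range ((N + 1) / 2)).filter (· ∈ E), wallis (2 * k))⁻¹)
        atTop (𝓝 y) := by
      refine (hy.comp h2).congr fun N => ?_
      simp only [Function.comp_apply]
      rw [← prod_inv_distrib]
      congr 1
      refine prod_congr rfl fun k _ => ?_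
      rw [wallis_even, sub_zero, inv_div]
      push_cast
      field_simp
      ring
    have h4 := (prod_wallis.mul h3).mul_const Real.pi⁻¹
    have h5 : Real.pi * y * Real.pi⁻¹ = y := by
      have := Real.pi_ne_zero
      field_simp
    rw [h5] at h4
    refine h4.congr fun N => ?_
    have h6 : ∏ k ∈ (range N).filter (fun k => ∃ m ∈ E, k = 2 * m), wallis k ≠ 0 := by
      rw [← prod_even E wallis N]
      exact prod_ne_zero_iff.2 fun k _ => hw0 k
    rw [prod_even E wallis N, ← prod_filter_mul_prod_filter_not (range N) (fun k => ∃ m ∈ E, k = 2 * m) wallis]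
    have := Real.pi_ne_zero
    field_simp

end Pool.Agent.Results.MP_57632f_nt.FewOmittedTerms
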