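import Pool.Agent.H607.CN.Final
import Pool.Agent.H607.CF.Norm
import Pool.Agent.H607.CF.Euler
import Pool.Graph.R_seed8.H326R2.Pi.Top
import Mathlib

/-!
# Making `π` normal in all bases by changing very few partial quotients

The continued fraction `π = [3; 7, 15, 1, 292, 1, …]` becomes an absolutely normal number (normal
in base `10` and in all other integer bases) after a change of at most `C log N` of the first `N`
partial quotients, for all `N ≥ 2`, more precisely of at most `C log log log q_N` of them, where
`q_N` is the denominator of the `N`-th convergent of `π`. The first `M` partial quotients need not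
be changed, for any given `M`. The same holds, with the same constant `C`, for all irrational
numbers which are not Liouville numbers.
-/

set_option autoImplicit false

namespace Pool.Agent.Results.MP_57632f_nt.PartialQuotientsOfPi

open Finset Filter Topology
open Pool.Agent.H607

/-- the digit of `x` in base `b` at position `i` after the point -/
noncomputable def digit (b : ℕ) (x : ℝ) (i : ℕ) : ℤ := ⌊x * (b : ℝ) ^ i⌋ % (b : ℤ)

open Classical in
/-- `x` is normal in base `b`: every word of `m` digits occurs along the positions with limiting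
frequency `b ^ (-m)` -/
def Normal (b : ℕ) (x : ℝ) : Prop :=
  ∀ m : ℕ, 1 ≤ m → ∀ w : Fin m → Fin b,
    Tendsto (fun N : ℕ => (((Icc 1 N).filter fun i : ℕ =>
      ∀ t : Fin m, digit b x (i + (t : ℕ)) = ((w t : ℕ) : ℤ)).card : ℝ) / (N : ℝ))
      atTop (𝓝 (1 / (b : ℝ) ^ m))

/-- the complete quotients of the regular continued fraction of `x` -/
noncomputable def completeQuotient (x : ℝ) : ℕ → ℝ
  | 0 => x
  | n + 1 => 1 / Int.fract (completeQuotient x n)

/-- the partial quotients of the regular continued fraction of `x` -/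
noncomputable def partialQuotient (x : ℝ) (n : ℕ) : ℤ := ⌊completeQuotient x n⌋

/-- the denominators of the convergents of the regular continued fraction of `x` -/
noncomputable def denominator (x : ℝ) : ℕ → ℤ
  | 0 => 1
  | 1 => partialQuotient x 1
  | n + 2 => partialQuotient x (n + 2) * denominator x (n + 1) + denominator x n

lemma completeQuotient_eq (x : ℝ) (n : ℕ) : completeQuotient x n = CF.cq x n := by
  induction n with
  | zero => rfl
  | succ n ih =>
    rw [completeQuotient, CF.cq, ih]

lemma partialQuotient_eq (x : ℝ) : partialQuotient x = CF.pq x := by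
  ext n
  unfold partialQuotient CF.pq
  rw [completeQuotient_eq]

lemma denominator_eq (x : ℝ) (n : ℕ) : denominator x n = CF.Qd (CF.pq x) (n + 1) ∧
    denominator x (n + 1) = CF.Qd (CF.pq x) (n + 2) := by
  induction n with
  | zero =>
    constructor
    · rfl
    · simp [denominator, CF.Qd, partialQuotient_eq]
  | succ n ih =>
    refine ⟨ih.2, ?_⟩
    rw [show n + 1 + 1 = n + 2 by ring, denominator, ih.1, ih.2, partialQuotient_eq,
      show n + 1 + 2 = (n + 1) + 2 by ring]
    rfl

lemma not_liouville_pi : ¬ Liouville Real.pi := by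
  intro h
  obtain ⟨q0, hq0⟩ := Pool.Agent.H326R2.Pi.main
  obtain ⟨C, hC⟩ := h.liouvilleWith 7
  have h1 : ∀ᶠ n : ℕ in atTop, C ≤ (n : ℝ) ^ (0.95 : ℝ) :=
    ((tendsto_rpow_atTop (show (0 : ℝ) < 0.95 by norm_num)).comp
      tendsto_natCast_atTop_atTop).eventually_ge_atTop C
  obtain ⟨n, ⟨m, hm1, hm2⟩, hn1, hn2, hn3⟩ :=
    (hC.and_eventually (h1.and ((eventually_ge_atTop q0).and (eventually_ge_atTop 1)))).exists
  have h2 := hq0 n hn2 m
  have hn0 : (0 : ℝ) < n := by exact_mod_cast hn3
  have h3 := h2.trans_lt hm2
  rw [lt_div_iff₀ (Real.rpow_pos_of_pos hn0 _), ← Real.rpow_add hn0] at h3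
  norm_num at h3 hn1
  linarith

theorem result : ∃ C : ℝ, 0 < C ∧
    (∀ x : ℝ, Irrational x → ¬ Liouville x → ∀ M : ℕ,
      ∃ y : ℝ, Irrational y ∧ (∀ b : ℕ, 2 ≤ b → Normal b y) ∧
        (∀ n < M, partialQuotient y n = partialQuotient x n) ∧
        (∀ N : ℕ, 2 ≤ N → (({n : ℕ | n < N ∧ partialQuotient y n ≠ partialQuotient x n}).ncard : ℝ) ≤
          C * Real.log N) ∧
        (∀ N : ℕ, 16 ≤ denominator x N →
          (({n : ℕ | n < N ∧ partialQuotient y n ≠ partialQuotient x n}).ncard : ℝ) ≤
            C * Real.log (Real.log (Real.log (denominator x N))))) ∧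
    Irrational Real.pi ∧ ¬ Liouville Real.pi := by
  simp only [partialQuotient_eq]
  obtain ⟨C, hC, h⟩ := CN.main
  refine ⟨C, hC, fun x hx hl M => ?_, irrational_pi, not_liouville_pi⟩
  obtain ⟨y, h1, h2, h3, h4⟩ := h x hx hl M
  refine ⟨y, CF.irrational_of_freq y h4, fun b hb m _ w => ?_, h1, h2, fun N hN => ?_⟩
  · classical
    exact CF.normal_of_freq b hb y (h4 b hb) m w _ fun i => Iff.rfl
  · rw [(denominator_eq x N).1] at hN ⊢
    exact h3 N hN

end Pool.Agent.Results.MP_57632f_nt.PartialQuotientsOfPi
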