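import Pool.Agent.H607.ArctanTerms
import Pool.Agent.H607.Cond
import Mathlib

/-!
# Random subseries of the Machin-like series for `π`

By the formulas of Machin type, such as `π = 16 arctan (1/5) - 4 arctan (1/239)`, the number `π` is
an integral combination of values of the arctangent series at rational points. Let `S` be a random
set of natural numbers with independent membership events. Under a weak condition on the
probabilities, almost surely the sums over `k ∈ S` of the terms of the arctangent series at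
rational points of different absolute values are jointly normal in every integer base.
-/

set_option autoImplicit false

namespace Pool.Agent.Results.MP_57632f_nt.RandomMachinSeries

open Finset Filter Topology MeasureTheory ProbabilityTheory
open Pool.Agent.W206.ND (ee NT AV)
open Pool.Agent.H607

/-- the digit of `x` in base `b` at position `i` after the point -/
noncomputable def digit (b : ℕ) (x : ℝ) (i : ℕ) : ℤ := ⌊x * (b : ℝ) ^ i⌋ % (b : ℤ)

open Classical in
/-- the tuple `x` is jointly normal in base `b`: every digit matrix with `n` rows and `m` columns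
occurs along the positions with limiting frequency `b ^ (-(m * n))` -/
def JointlyNormal (b : ℕ) {n : ℕ} (x : Fin n → ℝ) : Prop :=
  ∀ m : ℕ, 1 ≤ m → ∀ D : Fin n → Fin m → Fin b,
    Tendsto (fun N : ℕ => (((Icc 1 N).filter fun i : ℕ =>
      ∀ (j : Fin n) (t : Fin m), digit b (x j) (i + (t : ℕ)) = ((D j t : ℕ) : ℤ)).card : ℝ) / (N : ℝ))
      atTop (𝓝 (1 / (b : ℝ) ^ (m * n)))

/-- the sum over `k ∈ S` of the terms of the arctangent series at `x` -/
noncomputable def arctanOn (S : Set ℕ) (x : ℝ) : ℝ :=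
  ∑' k : ℕ, S.indicator (fun k => (-1) ^ k * x ^ (2 * k + 1) / ((2 * k + 1 : ℕ) : ℝ)) k

/-- the full series is the arctangent -/
lemma arctanOn_univ (x : ℝ) (hx : |x| < 1) : arctanOn Set.univ x = Real.arctan x := by
  unfold arctanOn
  simp only [Set.indicator_univ]
  exact (Real.hasSum_arctan (by rwa [Real.norm_eq_abs])).tsum_eq

/-- Machin's formula -/
lemma machin : 16 * arctanOn Set.univ (1 / 5) - 4 * arctanOn Set.univ (1 / 239) = Real.pi := by
  rw [arctanOn_univ _ (by norm_num [abs_of_pos]), arctanOn_univ _ (by norm_num [abs_of_pos])]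
  have := Real.four_mul_arctan_inv_5_sub_arctan_inv_239
  rw [one_div, one_div]
  linarith

lemma jn_of_nt (b : ℕ) {n : ℕ} (x : Fin n → ℝ) (h : NT b x) : JointlyNormal b x := by
  intro m hm D
  have h1 := h m hm D
  refine h1.congr fun N => ?_
  congr 2

theorem result {Ω : Type*} [MeasurableSpace Ω] (μ : Measure Ω) [IsProbabilityMeasure μ]
    (S : Ω → Set ℕ) (q : ℕ → ℝ)
    (hmeas : ∀ k, MeasurableSet {ω | k ∈ S ω})
    (hind : iIndepSet (fun k => {ω | k ∈ S ω}) μ)
    (hprob : ∀ k, μ.real {ω | k ∈ S ω} = q k)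
    (hq : Tendsto (fun k : ℕ => q k * (1 - q k) * Real.log k) atTop atTop)
    (y : ℚ → ℝ) :
    ∀ᵐ ω ∂μ, ∀ (n : ℕ) (z : Fin n → ℚ), (∀ j, 0 < |z j| ∧ |z j| < 1) →
      (Function.Injective fun j => |z j|) →
      ∀ b : ℕ, 2 ≤ b → JointlyNormal b (fun j => y (z j) + arctanOn (S ω) (z j)) := by
  have hS : RandomSet μ S q := ⟨hmeas, hind, hprob⟩
  have hβ0 : ∀ k, 0 ≤ q k * (1 - q k) := fun k =>
    mul_nonneg (hS.q0 k) (by have := hS.q1 k; linarith)
  have hsum : ∀ z : ℚ, |z| < 1 →
      Summable (fun k : ℕ => (-1) ^ k * (z : ℝ) ^ (2 * k + 1) / ((2 * k + 1 : ℕ) : ℝ)) := by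
    intro z hz
    have h1 : ‖(z : ℝ)‖ < 1 := by
      rw [Real.norm_eq_abs]
      exact_mod_cast hz
    exact (Real.hasSum_arctan h1).summable
  -- one combination
  have key : ∀ (n : ℕ) (z : Fin n → ℚ), (∀ j, 0 < |z j| ∧ |z j| < 1) →
      (Function.Injective fun j => |z j|) →
      ∀ b : ℕ, 2 ≤ b → ∀ h : Fin n → ℤ, h ≠ 0 → ∀ᵐ ω ∂μ,
      AV b (∑ j, (h j : ℝ) * (y (z j) + arctanOn (S ω) (z j))) 1 := by
    intro n z hz01 hz b hb h hh
    obtain ⟨p, k, e, v, d, m, Q, A, C, hk, hkC, H⟩ := arctan_terms h z hh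
      (fun j => by have := (hz01 j).1; exact abs_pos.1 this) hz b hb
    have hes : Summable (acoef h z) := by
      have h1 : acoef h z = fun k => ∑ j, (h j : ℝ) *
          ((-1) ^ k * (z j : ℝ) ^ (2 * k + 1) / ((2 * k + 1 : ℕ) : ℝ)) := by
        ext k
        rw [acoef, mul_sum, sum_div]
        exact sum_congr rfl fun j _ => by ring
      rw [h1]
      exact summable_sum fun j _ => (hsum (z j) (hz01 j).2).mul_left _
    have h1 := H.as_normal hb hS hes (fun C' => cond_log (fun k => q k * (1 - q k)) hβ0 hq k hk C hkC C')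
      (∑ j, (h j : ℝ) * y (z j))
    filter_upwards [h1] with ω hω
    convert hω using 1
    simp only [mul_add]
    rw [sum_add_distrib]
    congr 1
    unfold ser arctanOn
    have h2 : ∀ k, (S ω).indicator (acoef h z) k =
        ∑ j, (h j : ℝ) * (S ω).indicator
          (fun k => (-1) ^ k * (z j : ℝ) ^ (2 * k + 1) / ((2 * k + 1 : ℕ) : ℝ)) k := by
      intro k
      by_cases hk : k ∈ S ω
      · simp only [Set.indicator_of_mem hk]
        rw [acoef, mul_sum, sum_div]
        exact sum_congr rfl fun j _ => by ring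
      · simp only [Set.indicator_of_notMem hk, mul_zero, sum_const_zero]
    simp only [h2]
    rw [Summable.tsum_finsetSum]
    · refine sum_congr rfl fun j _ => ?_
      rw [tsum_mul_left]
    · intro j _
      exact ((hsum (z j) (hz01 j).2).indicator _).mul_left _
  have key2 : ∀ᵐ ω ∂μ, ∀ (n : ℕ) (z : Fin n → ℚ) (b : ℕ) (h : Fin n → ℤ),
      (∀ j, 0 < |z j| ∧ |z j| < 1) → (Function.Injective fun j => |z j|) → 2 ≤ b → h ≠ 0 →
      AV b (∑ j, (h j : ℝ) * (y (z j) + arctanOn (S ω) (z j))) 1 := by
    rw [ae_all_iff]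
    intro n
    rw [ae_all_iff]
    intro z
    rw [ae_all_iff]
    intro b
    rw [ae_all_iff]
    intro h
    by_cases hall : (∀ j, 0 < |z j| ∧ |z j| < 1) ∧ (Function.Injective fun j => |z j|) ∧
        2 ≤ b ∧ h ≠ 0
    · filter_upwards [key n z hall.1 hall.2.1 b hall.2.2.1 h hall.2.2.2] with ω hω
      intro _ _ _ _
      exact hω
    · exact ae_of_all _ fun ω h1 h2 h3 h4 => absurd ⟨h1, h2, h3, h4⟩ hall
  filter_upwards [key2] with ω hω
  intro n z hz01 hz b hb
  apply jn_of_nt
  apply nt_of_weyl b n _ hb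
  intro h hh
  exact hω n z b h hz01 hz hb hh

end Pool.Agent.Results.MP_57632f_nt.RandomMachinSeries
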